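import Pool.Agent.H46.EHD.EPF2

/-!
# Board ehd_modules (MP_75a732_an), row EPF: the first visit
-/

namespace Pool.Agent.H46.EHD

open scoped BigOperators ComplexConjugate ContDiff ComplexOrder
open MeasureTheory
open Pool.Agent.H92.EQ Pool.Agent.H92.EHD Pool.Agent.H80.EQ Pool.Agent.H14.EQ

/-- the estimate for one horizon, normalised form -/
theorem fv_oneE (hEPA : T_EPA) (hEPL : T_EPL) (hEPR : T_EPR) (hPBD : T_PBD) (hPVI : T_PVI)
    (hKJ : T_KJ) (hEKB : T_EKB) (hTN : T_TN) (hTH : T_TH) (hD5 : T_D5) (hD6 : T_D6)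
    (hD7 : T_D7) (hD8 : T_D8) (hD12 : T_D12) (hD13 : T_D13) (hL3 : T_L3) (hL5 : T_L5)
    (hL6 : T_L6) (hP1 : T_P1) (hP3 : T_P3) (hP5 : T_P5) (hP6 : T_P6) {k d M : ℕ}
    {F : Fin (k + 1 + 1) → MvPolynomial (Fin (k + 1 + 1)) ℂ}
    {P : MvPolynomial (Fin (k + 1 + 1)) ℂ} (hd : 2 ≤ d) (hFE : IsE d F) (hP : NormE F P M)
    (hLoc : LocLipE (k + 1) (k + 1) 0) (hTG : TGaussE (k + 1) (k + 1) 0) :
    ∃ C : ℝ, 0 < C ∧ ∀ (r : ℝ) (j : ℕ) (σ : Form (Fin (k + 1 + 1)) (k + 1)), 0 < r →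
    r ≤ 1 / 2 → 1 ≤ j → ProjForm σ → mass 0 σ = mass 0 (om (k + 1 + 1) (k + 1)) →
    EE F d j σ (fun x => noV F (vis P M r) j 0 j x * vis P M r x) ≤
      C * (j / (d : ℝ) ^ j + 1 / Real.log (1 / r)) * mass 0 (om (k + 1 + 1) (k + 1)) := by
  have hF : IsH d F := hFE.isH
  obtain ⟨K, hK1, hK⟩ := hKJ (k + 1 + 1) d F (Nat.succ_pos _) hd hF
  obtain ⟨c1, hc1, hc11, -, hrj⟩ := hEPR (k + 1) d M F P (Nat.succ_pos k) hd hFE hP
  obtain ⟨Bp, hBp0, hBp'⟩ := (hL6 (k + 1 + 1)).1 (nv P M) (by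
    unfold nv
    exact (MvPolynomial.continuous_eval _).norm.continuousOn.div
      (nrm_cont.pow _).continuousOn fun z hz => pow_ne_zero _ (nrm_pos hz).ne')
    (fun r z hr _ => nv_smul hP.hom (by exact_mod_cast hr.ne') z)
  have hBp : ∀ z, z ≠ 0 → nv P M z ≤ Bp := fun z hz => (le_abs_self _).trans (hBp' z hz)
  set b : ℝ := (1 / 2) * Real.log (Bp ^ 2 + 5) with hbd
  have hb : 0 ≤ b := mul_nonneg (by norm_num) (Real.log_nonneg (by nlinarith))
  obtain ⟨C1, hC11, hC1⟩ := hPBD (k + 1 + 1) d M F P (Nat.succ_pos _) hd hF hP.hom b hb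
  obtain ⟨cL, m, hcL, hLoc'⟩ := hLoc (fun _ : Fin 0 => ell) (fun j => j.elim0)
  obtain ⟨cT, hcT, hTG'⟩ := hTG
  obtain ⟨CA, hCA, hEPA'⟩ := hEPA k
  obtain ⟨CI, hCI⟩ := hEPL k d M F P hd hFE hP.hom hP.pos hP.nx
  obtain ⟨R0, hR01, hR0⟩ := gss_half (k + 1 + 1)
  have hKC : 1 ≤ K * C1 := by nlinarith
  obtain ⟨C2, hC2, hcon⟩ := consts hKC hc1 hc11 hcL (show 1 ≤ 4 * R0 by linarith) m
    (k + 1 + 1) (Nat.succ_pos _)
  have hom := hD7 (k + 1 + 1) (k + 1)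
  have hc0 := (hom.2 0 rfl).1
  set c0 : ℝ := mass 0 (om (k + 1 + 1) (k + 1)) with hc0d
  have hM0 : (0 : ℝ) ≤ M := Nat.cast_nonneg M
  set CG : ℝ := CA * (b * c0 + |CI|) * c0 with hCG
  have hCG0 : 0 ≤ CG := by positivity
  refine ⟨2 * (0 + CG / c0 + 1) + 2 * M * cT * C2, by positivity, ?_⟩
  intro r j σ hr hr2 hj hσ hmass
  have hr1 : r ≤ 1 := by linarith
  have hlr : 0 < Real.log (1 / r) := Real.log_pos (by rw [lt_div_iff₀ hr]; linarith)
  obtain ⟨θ, hθ, hθ1, hτ1, hτ2, hτ3⟩ := hcon r j hr hr2 hj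
  have hd1 : 1 ≤ d := by omega
  have hD12' := hD12 (k + 1 + 1) d F hd1 hF j j
  have hit : ∀ i, IsH (d ^ i) (iter F i) := fun i =>
    (hD12 (k + 1 + 1) d F hd1 hF i i).1
  have hitE : IsE (d ^ j) (iter F j) :=
    (hEKB (k + 1) d F (Nat.succ_pos k) hd hFE).2.2.2.2.2.2.2 j
  have hne : ∀ i x, x ≠ 0 → ev (iter F i) x ≠ 0 := fun i x hx h => hx ((hit i).nd x h)
  have hD : 1 ≤ d ^ j := Nat.one_le_pow _ _ (by omega)
  have hv := hPVI (k + 1 + 1) M P r hP.hom hr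
  have hnb := noV_bd F hv.2.1 j 0 j
  obtain ⟨κ, hκd⟩ : ∃ κ : (Fin (k + 1 + 1) → ℂ) → ℝ, κ = fun x =>
      noV F (vis P M r) j 0 j x *
        (b - (1 / 2) * Real.log (nv P M x ^ 2 + r ^ 2)) := ⟨_, rfl⟩
  obtain ⟨hκ, hκb, hκw⟩ := hC1 j r hr hr1 κ hκd
  have hw : Pot (ell : (Fin (k + 1 + 1) → ℂ) → ℝ) := (hL3 (k + 1 + 1)).1
  have hw' : Pot (we P M r) := hL5 (k + 1 + 1) M P r hP.pos hP.hom hr
  have hg := hom_g (M := M) hw hw' b
  have hgz : ∀ z : Fin (k + 1 + 1) → ℂ, z ≠ 0 → b + M * (ell z - we P M r z) =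
      b - (1 / 2) * Real.log (nv P M z ^ 2 + r ^ 2) := fun z hz => g_eq hP.pos P hr b hz
  have h0 : ∀ z, z ≠ 0 → 0 ≤ κ z ∧ κ z ≤ b + M * (ell z - we P M r z) := by
    intro z hz
    rw [hgz z hz, hκd]
    have h1 := (vis_le hPVI hP.hom hr hr2 hBp hz).1
    exact ⟨mul_nonneg (hnb z).1 h1, mul_le_of_le_one_left h1 (hnb z).2⟩
  obtain ⟨Bg, -, hBg⟩ := (hL6 (k + 1 + 1)).1 _ hg.smooth.continuousOn
    (fun s z hs hz => hg.hom s z (by exact_mod_cast hs.ne') hz)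
  have hKn : 1 ≤ K ^ (j + 1) := one_le_pow₀ hK1
  have hCn : 1 ≤ C1 ^ (j + 1) := one_le_pow₀ hC11
  have hr3 : r ^ 3 ≤ 1 := pow_le_one₀ hr.le hr1
  have hr30 : 0 < r ^ 3 := by positivity
  have hKCn : (K * C1) ^ (j + 1) = K ^ (j + 1) * C1 ^ (j + 1) := mul_pow _ _ _
  have hM1 : K ^ (j + 1) ≤ (K * C1) ^ (j + 1) / r ^ 3 := by
    rw [le_div_iff₀ hr30, hKCn]
    exact mul_le_mul_of_nonneg_left (hr3.trans hCn) (by linarith)
  have hM2 : C1 ^ (j + 1) / r ^ 3 ≤ (K * C1) ^ (j + 1) / r ^ 3 := by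
    refine div_le_div_of_nonneg_right ?_ hr30.le
    rw [hKCn]
    nlinarith
  have hM3 : C1 / r ≤ (K * C1) ^ (j + 1) / r ^ 3 := by
    refine le_trans ?_ hM2
    refine div_le_div₀ (by linarith) (le_self_pow₀ hC11 (by omega)) hr30 ?_
    exact pow_le_of_le_one hr.le hr1 (by norm_num)
  have hρ0 : 0 < (c1 * r) ^ j := by positivity
  have hρ1 : (c1 * r) ^ j ≤ 1 := pow_le_one₀ (by positivity) (by nlinarith)
  obtain ⟨-, -, -, -, -, hj1, hj2, -⟩ := hK j 1 one_pos le_rfl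
  have hloc := hLoc' (d ^ j) (iter F j) hD hitE κ ((K * C1) ^ (j + 1) / r ^ 3)
    ((c1 * r) ^ j) hκ (hKn.trans hM1) hρ0 hρ1 (fun x hx => (hκb x hx).trans hM3)
    (fun x hx a => (hκw x hx a).trans hM2)
    (fun x hx i a => (hj1 x hx i a).trans
      (mul_le_mul_of_nonneg_right hM1 (Real.sqrt_nonneg _)))
    (fun x hx i a c => (hj2 x hx i a c).trans
      (mul_le_mul_of_nonneg_right hM1 (Real.sqrt_nonneg _)))
    (by
      intro x hx hkx
      have hx0 : x ≠ 0 := by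
        rintro rfl
        have h2 : nrm (0 : Fin (k + 1 + 1) → ℂ) = 0 := by simp [nrm, nsq]
        rw [h2] at hx
        exact zero_ne_one hx
      have h1 : noV F (vis P M r) j 0 j x ≠ 0 := by
        intro h
        refine hkx ?_
        rw [hκd]
        change _ * _ = (0 : ℝ)
        rw [h, zero_mul]
      have h2 := hrj j r x hx0 hr hr1 fun i hi hij => noV_ne hPVI hP.hom hr F h1 hi hij
      unfold relL at h2
      rw [hx, one_pow, mul_one, le_div_iff₀ (pow_pos (nrm_pos (hne j x hx0)) _)] at h2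
      exact h2) σ hσ
  have hmp : mass 0 (pull (iter F j) σ) = ((d ^ j : ℕ) : ℝ) ^ (k + 1) * c0 := by
    rw [(hP5 (k + 1 + 1) (k + 1) 0 (d ^ j) σ rfl hσ).1 (iter F j) hD (hit j), hmass]
  have hDk : 0 < ((d ^ j : ℕ) : ℝ) ^ (k + 1) := by
    have : (0 : ℝ) < ((d ^ j : ℕ) : ℝ) := by exact_mod_cast hD
    positivity
  have hT := hTG' (d ^ j) (iter F j) hD (hit j) ell (we P M r) (fun _ : Fin 0 => ell) hw hw'
    (fun i => i.elim0) σ hσ θ hθ hθ1
  rw [hmass] at hT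
  set Dk : ℝ := ((d ^ j : ℕ) : ℝ) ^ (k + 1) with hDkd
  have hpow : (d : ℝ) ^ ((k + 1) * j) = Dk := by
    rw [hDkd]
    push_cast
    rw [← pow_mul, mul_comm]
  have hGb : ∀ δ : ℝ, 0 < δ → δ ≤ 1 →
      pair (fun z => b + M * (ell z - we P M r z)) (pull (iter F j) (tauH (k := k) δ))
      (fun _ : Fin 0 => ell) ≤ Dk * (b * c0 + |CI|) := by
    intro δ hδ hδ1
    obtain ⟨hτ, hτm⟩ := tau_props hD6 hD7 hL5 hP3 hP6 k hδ
    have h1 := pair_Sn F d j (tauH (k := k) δ) (fun z => b + M * (ell z - we P M r z))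
      (fun _ : Fin 0 => ell)
    rw [hpow] at h1
    have hS : ProjForm (Sn F d j (tauH (k := k) δ)) := hD12'.2.2.2.2 (k + 1) _ hτ
    have h2 := pair_lin hP1 hP3 hS (hw.smooth.sub hw'.smooth).continuousOn b M
      (g := fun z => b + M * (ell z - we P M r z)) (fun z _ => rfl)
    rw [(hP5 (k + 1 + 1) (k + 1) 0 d _ rfl hτ).2.1 F j hd1 hF, hτm] at h2
    have h3 := hCI j δ r hδ hδ1 hr hr1
    unfold EE at h3
    rw [ki_congr (Nat.succ_pos (k + 1))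
      (φ := fun z => -(1 / 2) * Real.log (nv P M z ^ 2 + r ^ 2))
      (ψ := fun z => ell z - we P M r z) (S' := Sn F d j (tauH (k := k) δ))
      (v := fun _ : Fin 0 => ell) (M : ℝ) (by
        intro z hz
        have h4 := hgz z hz
        have h5 : -(1 / 2) * Real.log (nv P M z ^ 2 + r ^ 2) =
          M * (ell z - we P M r z) := by linarith
        rw [h5]
        ring)] at h3
    have h6 : pair (fun z => b + M * (ell z - we P M r z))
        (pull (iter F j) (tauH (k := k) δ)) (fun _ : Fin 0 => ell) =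
        Dk * pair (fun z => b + M * (ell z - we P M r z))
        (Sn F d j (tauH (k := k) δ)) (fun _ : Fin 0 => ell) := by
      rw [h1, ← mul_assoc, mul_inv_cancel₀ hDk.ne', one_mul]
    rw [h6]
    refine mul_le_mul_of_nonneg_left ?_ hDk.le
    rw [h2]
    have h7 := le_abs_self CI
    linarith
  have hG := hEPA' (d ^ j) (iter F j) hD hitE _ (fun _ : Fin 0 => ell) σ
    (Dk * (b * c0 + |CI|)) hg (fun z hz => (h0 z hz).1.trans (h0 z hz).2) hσ
    (by positivity) hGb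
  rw [hmass] at hG
  have hG' : CA * (Dk * (b * c0 + |CI|)) * c0 ≤ Dk * (0 * c0 + CG) := by
    rw [hCG]
    exact le_of_eq (by ring)
  have hR00 : (0 : ℝ) ≤ R0 := by linarith
  have hτR : θ * R0 ≤ 1 / 2 := by
    have h1 : (1 : ℝ) / (2 * ((k + 1 + 1 : ℕ) : ℝ)) ≤ 1 / 2 := by
      refine one_div_le_one_div_of_le two_pos ?_
      push_cast
      have := (Nat.cast_nonneg k : (0 : ℝ) ≤ k)
      linarith
    have h2 : θ * R0 ≤ θ * (4 * R0) := mul_le_mul_of_nonneg_left (by linarith) hθ.le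
    linarith
  have hdom := gauss_domE hTN hTH hD5 hP1 hP3 hD (hit j) hσ
    (hw.smooth.sub hw'.smooth).continuousOn hκ hg h0 hM0 (fun z _ => rfl) hBg hθ hR0 hT.1
    hT.2.1 hT.2.2 hG (e := Dk * c0) (by positivity) (by
      intro X hX hdet
      obtain ⟨hs0, hrow, hA⟩ := nrm_mat hθ hR00 hτR hX
      have h1 := hloc _ (θ * (4 * R0)) (by positivity)
        (by push_cast at hτ1 ⊢; exact hτ1) hrow hA
      rw [hmp, am_smul hD8 hD13 (hit j) hσ κ _ (inv_ne_zero hs0) hdet] at h1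
      have h2 : cL * ((K * C1) ^ (j + 1) / r ^ 3 / (c1 * r) ^ j) ^ m * (θ * (4 * R0)) *
          (Dk * c0) ≤ 1 * (Dk * c0) :=
        mul_le_mul_of_nonneg_right hτ2 (by positivity)
      have h3 := (abs_le.1 (h1.trans h2)).1
      linarith)
  have hSσ : ProjForm (Sn F d j σ) := hD12'.2.2.2.2 (k + 1) _ hσ
  have hvis : EE F d j σ (fun x => noV F (vis P M r) j 0 j x * vis P M r x) ≤
      EE F d j σ (fun x => 1 / Real.log (1 / r) * κ x) := by
    unfold EE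
    refine pair_mono' hP1 hP3 hSσ
      ((noV_cont hv.1 hne j 0 j).mul hv.1.smooth.continuousOn)
      (continuousOn_const.mul hκ.smooth.continuousOn) fun z hz => ?_
    have h1 := (vis_le hPVI hP.hom hr hr2 hBp hz).2
    rw [hκd]
    change _ ≤ 1 / Real.log (1 / r) * (noV F (vis P M r) j 0 j z * _)
    calc noV F (vis P M r) j 0 j z * vis P M r z ≤ noV F (vis P M r) j 0 j z *
        ((b - (1 / 2) * Real.log (nv P M z ^ 2 + r ^ 2)) / Real.log (1 / r)) :=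
        mul_le_mul_of_nonneg_left h1 (hnb z).1
      _ = _ := by ring
  have hEκ : EE F d j σ (fun x => 1 / Real.log (1 / r) * κ x) =
      1 / Real.log (1 / r) * (Dk⁻¹ * pair κ (pull (iter F j) σ) (fun _ : Fin 0 => ell)) := by
    unfold EE
    rw [← hpow, ← pair_Sn]
    exact ki_congr (Nat.succ_pos (k + 1)) _ fun z _ => by ring
  refine hvis.trans ?_
  rw [hEκ]
  exact final_ineq hlr hDk hc0 le_rfl hCG0 hM0 hcT.le hC2.le (Nat.cast_nonneg j)
    (show (0 : ℝ) < ((d ^ j : ℕ) : ℝ) by exact_mod_cast hD) (by push_cast; rfl) hdom hG' hτ3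

theorem pf_EPF (hEPA : T_EPA) (hEPL : T_EPL) (hEPR : T_EPR) (hPBD : T_PBD) (hPVI : T_PVI)
    (hKJ : T_KJ) (hEKB : T_EKB) (hTN : T_TN) (hTH : T_TH) (hD5 : T_D5) (hD6 : T_D6)
    (hD7 : T_D7) (hD8 : T_D8) (hD12 : T_D12) (hD13 : T_D13) (hL3 : T_L3) (hL5 : T_L5)
    (hL6 : T_L6) (hP1 : T_P1) (hP3 : T_P3) (hP5 : T_P5) (hP6 : T_P6) (hPDE : T_PDE) :
    T_EPF := by
  intro k d M F P hd hFE hP hLoc hTG
  have hF : IsH d F := hFE.isH
  obtain ⟨C, hC, h⟩ := fv_oneE hEPA hEPL hEPR hPBD hPVI hKJ hEKB hTN hTH hD5 hD6 hD7 hD8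
    hD12 hD13 hL3 hL5 hL6 hP1 hP3 hP5 hP6 hd hFE hP hLoc hTG
  refine ⟨C, hC, fun r j σ hr hr2 hj hσ => ?_⟩
  have hm0 : 0 ≤ mass 0 σ := (hP5 (k + 1 + 1) (k + 1) 0 d σ rfl hσ).2.2
  have hmS : mass 0 (Sn F d j σ) = mass 0 σ :=
    (hP5 (k + 1 + 1) (k + 1) 0 d σ rfl hσ).2.1 F j (by omega) hF
  have hSσ : ProjForm (Sn F d j σ) :=
    (hD12 (k + 1 + 1) d F (by omega) hF j j).2.2.2.2 (k + 1) _ hσ
  have hlr : 0 < Real.log (1 / r) := Real.log_pos (by rw [lt_div_iff₀ hr]; linarith)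
  have hx : 0 ≤ (j : ℝ) / (d : ℝ) ^ j + 1 / Real.log (1 / r) := by positivity
  have hv := (hPVI (k + 1 + 1) M P r hP.hom hr).2.1
  by_cases hm : mass 0 σ = 0
  · have h1 := (hP3 (k + 1 + 1) (k + 1) 0 _ (fun _ : Fin 0 => ell) rfl hSσ
      (fun i => i.elim0)).2.2.2 (fun x => noV F (vis P M r) j 0 j x * vis P M r x) 1 (by
        intro z _
        have h2 := noV_bd F hv j 0 j z
        have h3 := hv z
        rw [abs_of_nonneg (mul_nonneg h2.1 h3.1)]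
        exact mul_le_one₀ h2.2 h3.1 h3.2)
    rw [hmS, hm, mul_zero] at h1
    rw [hm, mul_zero]
    exact (le_abs_self _).trans h1
  · have hmp : 0 < mass 0 σ := lt_of_le_of_ne hm0 (Ne.symm hm)
    have hc0 := ((hD7 (k + 1 + 1) (k + 1)).2 0 rfl).1
    set l : ℝ := mass 0 (om (k + 1 + 1) (k + 1)) / mass 0 σ with hl
    have hl0 : 0 < l := div_pos hc0 hmp
    have hσ' : ProjForm (dens (fun _ => l) σ) :=
      hPDE (k + 1) (fun _ => l) σ hσ ⟨contDiffOn_const, fun _ _ _ _ => rfl⟩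
        fun _ _ => hl0.le
    have hm' : mass 0 (dens (fun _ => l) σ) = mass 0 (om (k + 1 + 1) (k + 1)) := by
      unfold mass
      rw [pair_sc (S := dens (fun _ => l) σ) (S' := σ) l (fun z I J => rfl)]
      change l * mass 0 σ = mass 0 (om (k + 1 + 1) (k + 1))
      rw [hl, div_mul_cancel₀ _ hm]
    have h1 := h r j (dens (fun _ => l) σ) hr hr2 hj hσ' hm'
    unfold EE at h1 ⊢
    rw [pair_sc (S' := Sn F d j σ) l (fun z I J => dens_Sn F d j l σ z I J)] at h1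
    have h2 : mass 0 (om (k + 1 + 1) (k + 1)) = l * mass 0 σ := by
      rw [hl, div_mul_cancel₀ _ hm]
    rw [h2] at h1
    have h3 : l * pair (fun x => noV F (vis P M r) j 0 j x * vis P M r x) (Sn F d j σ)
        (fun _ : Fin 0 => ell) ≤
        l * (C * (j / (d : ℝ) ^ j + 1 / Real.log (1 / r)) * mass 0 σ) := by
      refine h1.trans (le_of_eq ?_)
      ring
    exact le_of_mul_le_mul_left h3 hl0

end Pool.Agent.H46.EHD
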