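import Pool.Agent.H92.EHD.TP
import Pool.Agent.H14.EQ.PFV2

/-!
# Board ehd_modules (MP_75a732_an), row EPF: lemmas on the matrices `e1 X`
-/

namespace Pool.Agent.H46.EHD

open scoped BigOperators ComplexConjugate ContDiff ComplexOrder
open MeasureTheory
open Pool.Agent.H92.EQ Pool.Agent.H92.EHD Pool.Agent.H80.EQ Pool.Agent.H14.EQ

theorem e1_zero {k : ℕ} (X : Fin (k + 1) → Fin (k + 1) → ℂ) (j : Fin (k + 1)) :
    e1 X 0 j = if (j : ℕ) < 1 then X 0 j else 0 := by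
  simp [e1, cut, row0]

theorem e1_ne {k : ℕ} (X : Fin (k + 1) → Fin (k + 1) → ℂ) {i : Fin (k + 1)} (hi : i ≠ 0)
    (j : Fin (k + 1)) : e1 X i j = X i j := by
  simp [e1, cut, row0, Function.update_of_ne hi]

theorem e1_det {k : ℕ} (X : Fin (k + 1) → Fin (k + 1) → ℂ) :
    (e1 X).det = X 0 0 * (low (Matrix.of X)).det := by
  rw [Matrix.det_succ_row_zero, Fin.sum_univ_succ]
  have h1 : ∀ j : Fin k, (-1 : ℂ) ^ ((j.succ : Fin (k + 1)) : ℕ) * e1 X 0 j.succ *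
      ((e1 X).submatrix Fin.succ (j.succ).succAbove).det = 0 := by
    intro j
    rw [e1_zero, if_neg (by simp)]
    ring
  rw [Finset.sum_eq_zero fun j _ => h1 j, add_zero, e1_zero, if_pos (by simp)]
  have h2 : (e1 X).submatrix Fin.succ (Fin.succAbove 0) = low (Matrix.of X) := by
    ext a b
    simp only [Matrix.submatrix_apply, low, Fin.zero_succAbove, Matrix.of_apply]
    exact e1_ne X (Fin.succ_ne_zero a) _
  rw [h2]
  simp

theorem rep_det {k : ℕ} (X : Fin (k + 1) → Fin (k + 1) → ℂ) :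
    (Matrix.of (rep X 0 0 1)).det - (Matrix.of (rep X 0 0 0)).det =
      (low (Matrix.of X)).det := by
  rw [Matrix.det_succ_row_zero, Matrix.det_succ_row_zero, ← Finset.sum_sub_distrib,
    Fin.sum_univ_succ]
  have hs : ∀ (t : ℂ) (j : Fin (k + 1)),
      (Matrix.of (rep X 0 0 t)).submatrix Fin.succ j.succAbove =
        (Matrix.of X).submatrix Fin.succ j.succAbove := by
    intro t j
    ext a b
    simp only [Matrix.submatrix_apply, Matrix.of_apply, rep]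
    rw [Function.update_of_ne (Fin.succ_ne_zero a)]
  have h1 : ∀ j : Fin k, (-1 : ℂ) ^ ((j.succ : Fin (k + 1)) : ℕ) *
      (Matrix.of (rep X 0 0 1)) 0 j.succ *
      ((Matrix.of (rep X 0 0 1)).submatrix Fin.succ (j.succ).succAbove).det -
      (-1 : ℂ) ^ ((j.succ : Fin (k + 1)) : ℕ) * (Matrix.of (rep X 0 0 0)) 0 j.succ *
      ((Matrix.of (rep X 0 0 0)).submatrix Fin.succ (j.succ).succAbove).det = 0 := by
    intro j
    rw [hs, hs]
    have h2 : ∀ t : ℂ, (Matrix.of (rep X 0 0 t)) 0 j.succ = X 0 j.succ := by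
      intro t
      simp only [Matrix.of_apply, rep, Function.update_self]
      rw [Function.update_of_ne (Fin.succ_ne_zero j)]
    rw [h2, h2, sub_self]
  rw [Finset.sum_eq_zero fun j _ => h1 j, add_zero, hs, hs]
  have h3 : ∀ t : ℂ, (Matrix.of (rep X 0 0 t)) 0 0 = t := by
    intro t
    simp only [Matrix.of_apply, rep, Function.update_self]
  have h4 : (Matrix.of X).submatrix Fin.succ (Fin.succAbove 0) = low (Matrix.of X) := by
    ext a b
    simp only [Matrix.submatrix_apply, low, Fin.zero_succAbove]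
  rw [h3, h3, h4]
  simp

/-- almost every matrix `e1 X` is invertible -/
theorem ae_e1 (hTH : T_TH) (k : ℕ) :
    ∀ᵐ X : Fin (k + 1) → Fin (k + 1) → ℂ, (e1 X).det ≠ 0 := by
  have h0 : ∀ᵐ X : Fin (k + 1) → Fin (k + 1) → ℂ, X 0 0 ≠ 0 := by
    have h1 : ∀ᵐ t : ℂ, t ≠ 0 := by
      rw [ae_iff]
      simp
    have h2 : ∀ᵐ x : Fin (k + 1) → ℂ, x 0 ≠ 0 :=
      (Measure.quasiMeasurePreserving_eval (fun _ : Fin (k + 1) => (volume : Measure ℂ))
        0).ae h1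
    exact (Measure.quasiMeasurePreserving_eval
      (fun _ : Fin (k + 1) => (volume : Measure (Fin (k + 1) → ℂ))) 0).ae h2
  filter_upwards [h0, (hTH (k + 1) 0 0).2] with X h1 h2
  rw [rep_det] at h2
  rw [e1_det]
  exact mul_ne_zero h1 h2

theorem ae_e1' (hTH : T_TH) {k : ℕ} {θ : ℝ} (hθ : 0 < θ) :
    ∀ᵐ X : Fin (k + 1) → Fin (k + 1) → ℂ,
      (e1 (1 + (θ : ℂ) • Matrix.of X : Matrix (Fin (k + 1)) (Fin (k + 1)) ℂ)).det ≠ 0 := by
  have _ := haar2 (k + 1)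
  have h1 := ae_e1 hTH k
  have hA : ∀ X : Fin (k + 1) → Fin (k + 1) → ℂ,
      (1 + (θ : ℂ) • Matrix.of X : Matrix (Fin (k + 1)) (Fin (k + 1)) ℂ) =
        dl (k + 1) + θ • X := by
    intro X
    funext i j
    simp [dl, Matrix.one_apply]
  simp only [hA]
  rw [ae_iff] at h1 ⊢
  have h2 : {X : Fin (k + 1) → Fin (k + 1) → ℂ | ¬ (e1 (dl (k + 1) + θ • X)).det ≠ 0} =
      (fun X => θ • X) ⁻¹' ((fun Y => dl (k + 1) + Y) ⁻¹'
        {Y : Fin (k + 1) → Fin (k + 1) → ℂ | ¬ (e1 Y).det ≠ 0}) := rfl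
  rw [h2, Measure.addHaar_preimage_smul _ hθ.ne', measure_preimage_add, h1, mul_zero]

/-- invariance under scalars -/
theorem am_smul (hD8 : T_D8) (hD13 : T_D13) {k p q D : ℕ}
    {Φ : Fin (k + 1) → MvPolynomial (Fin (k + 1)) ℂ} (hΦ : IsH D Φ)
    {S : Form (Fin (k + 1)) p} (hS : ProjForm S) (φ : (Fin (k + 1) → ℂ) → ℝ)
    (u : Fin q → (Fin (k + 1) → ℂ) → ℝ) {c : ℂ} (hc : c ≠ 0)
    {A : Matrix (Fin (k + 1)) (Fin (k + 1)) ℂ} (hA : A.det ≠ 0) :
    am φ Φ S u (c • A) = am φ Φ S u A := by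
  have key : ∀ y : Fin (k + 1) → ℂ, y ≠ 0 → pull (lin (c • A)) S y = pull (lin A) S y := by
    intro y hy
    have hAy : A.mulVec y ≠ 0 := fun h => hy (Matrix.eq_zero_of_mulVec_eq_zero hA h)
    funext I J
    unfold pull
    refine Finset.sum_congr rfl fun I' _ => Finset.sum_congr rfl fun J' _ => ?_
    rw [(hD13 (k + 1) (c • A) A y).1, (hD13 (k + 1) (c • A) A y).2.1,
      (hD13 (k + 1) A A y).1, (hD13 (k + 1) A A y).2.1, Matrix.smul_mulVec,
      hS.homog c _ hc hAy]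
    have h1 : ∏ l, (c • A) (I' l) (I l) = c ^ p * ∏ l, A (I' l) (I l) := by
      simp only [Matrix.smul_apply, smul_eq_mul]
      rw [Finset.prod_mul_distrib, Finset.prod_const, Finset.card_univ, Fintype.card_fin]
    have h2 : ∏ l, conj ((c • A) (J' l) (J l)) = conj c ^ p * ∏ l, conj (A (J' l) (J l)) := by
      simp only [Matrix.smul_apply, smul_eq_mul, map_mul]
      rw [Finset.prod_mul_distrib, Finset.prod_const, Finset.card_univ, Fintype.card_fin]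
    rw [h1, h2]
    have h3 : (((‖c‖ ^ (2 * p))⁻¹ : ℝ) : ℂ) * (c ^ p * conj c ^ p) = 1 := by
      rw [← mul_pow, Complex.mul_conj', ← pow_mul]
      push_cast
      refine inv_mul_cancel₀ (pow_ne_zero _ ?_)
      exact_mod_cast norm_ne_zero_iff.2 hc
    calc (((‖c‖ ^ (2 * p))⁻¹ : ℝ) : ℂ) * S (A.mulVec y) I' J' *
          (c ^ p * ∏ l, A (I' l) (I l)) * (conj c ^ p * ∏ l, conj (A (J' l) (J l))) =
        ((((‖c‖ ^ (2 * p))⁻¹ : ℝ) : ℂ) * (c ^ p * conj c ^ p)) *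
          (S (A.mulVec y) I' J' * (∏ l, A (I' l) (I l)) * ∏ l, conj (A (J' l) (J l))) := by
          ring
      _ = _ := by rw [h3, one_mul]
  unfold am pair Iint
  refine integral_congr_ae ?_
  filter_upwards [ki_ne (Nat.succ_pos k)
    {z : Fin (k + 1) → ℂ | 0 ≤ ell z ∧ ell z < 1}] with z hz
  have h1 : pull (cmp (lin (c • A)) Φ) S z = pull (cmp (lin A) Φ) S z := by
    rw [(hD8 (k + 1) p (lin (c • A)) Φ S z).2.2, (hD8 (k + 1) p (lin A) Φ S z).2.2]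
    have h2 := key (ev Φ z) fun h => hz (hΦ.nd z h)
    funext I J
    unfold pull at h2 ⊢
    refine Finset.sum_congr rfl fun I' _ => Finset.sum_congr rfl fun J' _ => ?_
    have h3 := congrFun (congrFun h2 I') J'
    rw [h3]
  unfold Q
  rw [h1]

/-- the normalised matrix -/
theorem nrm_mat {k : ℕ} {θ R : ℝ} (hθ : 0 < θ) (hR : 0 ≤ R) (hτ : θ * R ≤ 1 / 2)
    {X : Fin (k + 1) → Fin (k + 1) → ℂ} (hX : ∀ i j, ‖X i j‖ ≤ R) :
    (1 + (θ : ℂ) * X 0 0) ≠ 0 ∧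
    (∀ j, ((1 + (θ : ℂ) * X 0 0)⁻¹ •
      e1 (1 + (θ : ℂ) • Matrix.of X : Matrix (Fin (k + 1)) (Fin (k + 1)) ℂ)) 0 j =
        (1 : Matrix (Fin (k + 1)) (Fin (k + 1)) ℂ) 0 j) ∧
    ∀ i j, ‖((1 + (θ : ℂ) * X 0 0)⁻¹ •
      e1 (1 + (θ : ℂ) • Matrix.of X : Matrix (Fin (k + 1)) (Fin (k + 1)) ℂ)) i j -
        (1 : Matrix (Fin (k + 1)) (Fin (k + 1)) ℂ) i j‖ ≤ θ * (4 * R) := by
  have hb : ∀ i j, ‖(θ : ℂ) * X i j‖ ≤ θ * R := by
    intro i j
    rw [norm_mul, Complex.norm_real, Real.norm_eq_abs, abs_of_pos hθ]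
    exact mul_le_mul_of_nonneg_left (hX i j) hθ.le
  have hs : 1 / 2 ≤ ‖1 + (θ : ℂ) * X 0 0‖ := by
    have h1 := norm_sub_le (1 + (θ : ℂ) * X 0 0) ((θ : ℂ) * X 0 0)
    rw [add_sub_cancel_right, norm_one] at h1
    have h2 := hb 0 0
    linarith
  have hs0 : (1 + (θ : ℂ) * X 0 0) ≠ 0 := by
    intro h
    rw [h, norm_zero] at hs
    linarith
  have hrow : ∀ j, ((1 + (θ : ℂ) * X 0 0)⁻¹ •
      e1 (1 + (θ : ℂ) • Matrix.of X : Matrix (Fin (k + 1)) (Fin (k + 1)) ℂ)) 0 j =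
        (1 : Matrix (Fin (k + 1)) (Fin (k + 1)) ℂ) 0 j := by
    intro j
    rw [Matrix.smul_apply, e1_zero, smul_eq_mul]
    by_cases hj : j = 0
    · subst hj
      rw [if_pos (by simp)]
      have h1 : (1 + (θ : ℂ) • Matrix.of X : Matrix (Fin (k + 1)) (Fin (k + 1)) ℂ) 0 0 =
          1 + (θ : ℂ) * X 0 0 := by simp
      rw [h1, inv_mul_cancel₀ hs0, Matrix.one_apply_eq]
    · rw [if_neg (fun h => hj (Fin.ext (by simpa using h))), mul_zero,
        Matrix.one_apply_ne (Ne.symm hj)]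
  refine ⟨hs0, hrow, fun i j => ?_⟩
  by_cases hi : i = 0
  · subst hi
    rw [hrow j, sub_self, norm_zero]
    positivity
  · rw [Matrix.smul_apply, e1_ne _ hi, smul_eq_mul]
    have h1 : (1 + (θ : ℂ) • Matrix.of X : Matrix (Fin (k + 1)) (Fin (k + 1)) ℂ) i j =
        (1 : Matrix (Fin (k + 1)) (Fin (k + 1)) ℂ) i j + (θ : ℂ) * X i j := by simp
    rw [h1]
    have h2 : (1 + (θ : ℂ) * X 0 0)⁻¹ *
        ((1 : Matrix (Fin (k + 1)) (Fin (k + 1)) ℂ) i j + (θ : ℂ) * X i j) -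
        (1 : Matrix (Fin (k + 1)) (Fin (k + 1)) ℂ) i j =
        (1 + (θ : ℂ) * X 0 0)⁻¹ * ((θ : ℂ) * X i j -
          (θ : ℂ) * X 0 0 * (1 : Matrix (Fin (k + 1)) (Fin (k + 1)) ℂ) i j) := by
      field_simp
      ring
    rw [h2, norm_mul, norm_inv]
    have h3 : ‖(1 : Matrix (Fin (k + 1)) (Fin (k + 1)) ℂ) i j‖ ≤ 1 := by
      rw [Matrix.one_apply]
      split_ifs <;> simp
    have h4 : ‖(θ : ℂ) * X i j -
        (θ : ℂ) * X 0 0 * (1 : Matrix (Fin (k + 1)) (Fin (k + 1)) ℂ) i j‖ ≤ 2 * (θ * R) := by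
      refine (norm_sub_le _ _).trans ?_
      rw [norm_mul ((θ : ℂ) * X 0 0)]
      have h5 := hb i j
      have h6 : ‖(θ : ℂ) * X 0 0‖ * ‖(1 : Matrix (Fin (k + 1)) (Fin (k + 1)) ℂ) i j‖ ≤
          θ * R * 1 := mul_le_mul (hb 0 0) h3 (norm_nonneg _) (by positivity)
      linarith
    have h5 : ‖1 + (θ : ℂ) * X 0 0‖⁻¹ ≤ 2 := by
      rw [inv_le_comm₀ (by linarith) two_pos]
      linarith
    calc ‖1 + (θ : ℂ) * X 0 0‖⁻¹ * _ ≤ 2 * (2 * (θ * R)) :=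
          mul_le_mul h5 h4 (norm_nonneg _) (by norm_num)
      _ = θ * (4 * R) := by ring

end Pool.Agent.H46.EHD
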