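import Pool.Agent.H46.EHD.EPF1

/-!
# Board ehd_modules (MP_75a732_an), row EPF: comparison with Gaussian means
-/

namespace Pool.Agent.H46.EHD

open scoped BigOperators ComplexConjugate ContDiff ComplexOrder
open MeasureTheory
open Pool.Agent.H92.EQ Pool.Agent.H92.EHD Pool.Agent.H80.EQ Pool.Agent.H14.EQ

/-- the comparison of the value at the identity with means over the group -/
theorem gauss_domE (hTN : T_TN) (hTH : T_TH) (hD5 : T_D5) (hP1 : T_P1) (hP3 : T_P3) {k D : ℕ}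
    {Φ : Fin (k + 1) → MvPolynomial (Fin (k + 1)) ℂ} (hD : 1 ≤ D) (hΦ : IsH D Φ)
    {σ : Form (Fin (k + 1)) k} (hσ : ProjForm σ) {ψ κ g : (Fin (k + 1) → ℂ) → ℝ}
    (hψ : ContinuousOn ψ {0}ᶜ) (hκ : Hom0 κ) (hg : Hom0 g)
    (h0 : ∀ z, z ≠ 0 → 0 ≤ κ z ∧ κ z ≤ g z) {b M : ℝ} (hM : 0 ≤ M)
    (hgw : ∀ z, z ≠ 0 → g z = b + M * ψ z) {B : ℝ} (hB : ∀ z, z ≠ 0 → |g z| ≤ B)
    {θ R e E G : ℝ} (hθ : 0 < θ)
    (hR : 1 / 2 ≤ ∫ X in Metric.closedBall (0 : Fin (k + 1) → Fin (k + 1) → ℂ) R, gss X)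
    (hI : Integrable (fun X : Fin (k + 1) → Fin (k + 1) → ℂ =>
      gss X * am ψ Φ σ (fun _ : Fin 0 => ell)
        (e1 ((1 + (θ : ℂ) • Matrix.of X : Matrix (Fin (k + 1)) (Fin (k + 1)) ℂ)))))
    (hI' : Integrable (fun X : Fin (k + 1) → Fin (k + 1) → ℂ =>
      gss X * am ψ Φ σ (fun _ : Fin 0 => ell) (e1 X)))
    (hT : |(∫ X : Fin (k + 1) → Fin (k + 1) → ℂ,
        gss X * am ψ Φ σ (fun _ : Fin 0 => ell)
          (e1 ((1 + (θ : ℂ) • Matrix.of X : Matrix (Fin (k + 1)) (Fin (k + 1)) ℂ)))) -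
      ∫ X : Fin (k + 1) → Fin (k + 1) → ℂ,
        gss X * am ψ Φ σ (fun _ : Fin 0 => ell) (e1 X)| ≤ E)
    (hG : ∫ X : Fin (k + 1) → Fin (k + 1) → ℂ,
      gss X * am g Φ σ (fun _ : Fin 0 => ell) (e1 X) ≤ G)
    (he : 0 ≤ e)
    (hL : ∀ X : Fin (k + 1) → Fin (k + 1) → ℂ, (∀ i j, ‖X i j‖ ≤ R) →
      (e1 ((1 + (θ : ℂ) • Matrix.of X : Matrix (Fin (k + 1)) (Fin (k + 1)) ℂ))).det ≠ 0 →
      pair κ (pull Φ σ) (fun _ : Fin 0 => ell) ≤
        am κ Φ σ (fun _ : Fin 0 => ell)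
          (e1 ((1 + (θ : ℂ) • Matrix.of X : Matrix (Fin (k + 1)) (Fin (k + 1)) ℂ))) + e) :
    pair κ (pull Φ σ) (fun _ : Fin 0 => ell) ≤ 2 * (G + M * E + e) := by
  have hN := fun A => (hTN (k + 1) k 0 D Φ σ g (fun _ : Fin 0 => ell) B rfl hD hΦ hσ hg
    (fun j => j.elim0) hB).2.2 A
  have hlin : ∀ A : Matrix (Fin (k + 1)) (Fin (k + 1)) ℂ, A.det ≠ 0 →
      am g Φ σ (fun _ : Fin 0 => ell) A =
        b * ((D : ℝ) ^ k * mass 0 σ) + M * am ψ Φ σ (fun _ : Fin 0 => ell) A := by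
    intro A hdet
    have h1 := pair_lin hP1 hP3 (hN A hdet).1 hψ b M hgw
    rw [(hN A hdet).2] at h1
    exact h1
  have hle : ∀ A : Matrix (Fin (k + 1)) (Fin (k + 1)) ℂ, A.det ≠ 0 →
      am κ Φ σ (fun _ : Fin 0 => ell) A ≤ am g Φ σ (fun _ : Fin 0 => ell) A :=
    fun A hdet => pair_mono' hP1 hP3 (hN A hdet).1 hκ.smooth.continuousOn
      hg.smooth.continuousOn fun z hz => (h0 z hz).2
  have hpos : ∀ A : Matrix (Fin (k + 1)) (Fin (k + 1)) ℂ, A.det ≠ 0 →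
      0 ≤ am g Φ σ (fun _ : Fin 0 => ell) A :=
    fun A hdet => (hP3 (k + 1) k 0 _ (fun _ : Fin 0 => ell) rfl (hN A hdet).1
      (fun j => j.elim0)).2.1 g fun z hz => (h0 z hz).1.trans (h0 z hz).2
  have hp0 : 0 ≤ pair κ (pull Φ σ) (fun _ : Fin 0 => ell) :=
    (hP3 (k + 1) k 0 _ (fun _ : Fin 0 => ell) rfl (hD5 (k + 1) k D Φ σ hD hΦ hσ)
      (fun j => j.elim0)).2.1 κ fun z hz => (h0 z hz).1
  have hae := ae_e1' hTH (k := k) hθ
  have hae' := ae_e1 hTH k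
  have hg1 := gss_int (k + 1)
  have hGf : b * ((D : ℝ) ^ k * mass 0 σ) + M * ∫ X : Fin (k + 1) → Fin (k + 1) → ℂ,
      gss X * am ψ Φ σ (fun _ : Fin 0 => ell) (e1 X) ≤ G := by
    have h1 : ∫ X : Fin (k + 1) → Fin (k + 1) → ℂ,
        gss X * am g Φ σ (fun _ : Fin 0 => ell) (e1 X) =
        ∫ X : Fin (k + 1) → Fin (k + 1) → ℂ,
        (gss X * (b * ((D : ℝ) ^ k * mass 0 σ)) +
          M * (gss X * am ψ Φ σ (fun _ : Fin 0 => ell) (e1 X))) := by
      refine integral_congr_ae ?_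
      filter_upwards [hae'] with X hX
      rw [hlin _ hX]
      ring
    rw [h1, integral_add (hg1.1.mul_const _) (hI'.const_mul M), integral_mul_const,
      integral_const_mul, hg1.2, one_mul] at hG
    exact hG
  set f : (Fin (k + 1) → Fin (k + 1) → ℂ) → ℝ := fun X =>
    gss X * (b * ((D : ℝ) ^ k * mass 0 σ) + e) +
      M * (gss X * am ψ Φ σ (fun _ : Fin 0 => ell)
        (e1 ((1 + (θ : ℂ) • Matrix.of X : Matrix (Fin (k + 1)) (Fin (k + 1)) ℂ)))) with hf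
  have hfi : Integrable f := (hg1.1.mul_const _).add (hI.const_mul M)
  have hfe : ∀ᵐ X : Fin (k + 1) → Fin (k + 1) → ℂ, f X =
      gss X * (am g Φ σ (fun _ : Fin 0 => ell)
        (e1 ((1 + (θ : ℂ) • Matrix.of X : Matrix (Fin (k + 1)) (Fin (k + 1)) ℂ))) + e) := by
    filter_upwards [hae] with X hX
    rw [hlin _ hX, hf]
    ring
  have hfint : ∫ X, f X = b * ((D : ℝ) ^ k * mass 0 σ) + e +
      M * ∫ X : Fin (k + 1) → Fin (k + 1) → ℂ,
        gss X * am ψ Φ σ (fun _ : Fin 0 => ell)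
          (e1 ((1 + (θ : ℂ) • Matrix.of X : Matrix (Fin (k + 1)) (Fin (k + 1)) ℂ))) := by
    rw [hf, integral_add (hg1.1.mul_const _) (hI.const_mul M), integral_mul_const,
      integral_const_mul, hg1.2, one_mul]
  have h1 : (1 / 2) * pair κ (pull Φ σ) (fun _ : Fin 0 => ell) ≤ ∫ X, f X := by
    calc (1 / 2) * pair κ (pull Φ σ) (fun _ : Fin 0 => ell) ≤
        (∫ X in Metric.closedBall (0 : Fin (k + 1) → Fin (k + 1) → ℂ) R, gss X) *
          pair κ (pull Φ σ) (fun _ : Fin 0 => ell) :=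
          mul_le_mul_of_nonneg_right hR hp0
      _ = ∫ X in Metric.closedBall (0 : Fin (k + 1) → Fin (k + 1) → ℂ) R,
          gss X * pair κ (pull Φ σ) (fun _ : Fin 0 => ell) := by
          rw [integral_mul_const]
      _ ≤ ∫ X in Metric.closedBall (0 : Fin (k + 1) → Fin (k + 1) → ℂ) R, f X := by
          refine integral_mono_ae (hg1.1.mul_const _).integrableOn hfi.integrableOn ?_
          filter_upwards [ae_restrict_of_ae hfe, ae_restrict_of_ae hae,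
            ae_restrict_mem measurableSet_closedBall] with X h1 h2 h3
          rw [h1]
          refine mul_le_mul_of_nonneg_left ?_ (gss_nonneg X)
          refine (hL X ?_ h2).trans (add_le_add (hle _ h2) le_rfl)
          intro i j
          rw [mem_closedBall_zero_iff] at h3
          exact (norm_le_pi_norm (X i) j).trans ((norm_le_pi_norm X i).trans h3)
      _ ≤ ∫ X, f X := by
          refine setIntegral_le_integral hfi ?_
          filter_upwards [hfe, hae] with X h1 h2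
          rw [h1]
          exact mul_nonneg (gss_nonneg X) (add_nonneg (hpos _ h2) he)
  have h2 := (abs_le.1 hT).2
  have h3 := mul_le_mul_of_nonneg_left h2 hM
  rw [hfint] at h1
  linarith

/-- the densities `tauH δ` -/
theorem tau_props (hD6 : T_D6) (hD7 : T_D7) (hL5 : T_L5) (hP3 : T_P3) (hP6 : T_P6) (k : ℕ)
    {δ : ℝ} (hδ : 0 < δ) :
    ProjForm (tauH (k := k) δ) ∧
      mass 0 (tauH (k := k) δ) = mass 0 (om (k + 1 + 1) (k + 1)) := by
  have hw : Pot (wH (k := k + 1) δ) := by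
    have h1 := hL5 (k + 1 + 1) 1 (MvPolynomial.X 0) δ le_rfl (MvPolynomial.isHomogeneous_X ℂ 0)
      hδ
    have h2 : (fun z : Fin (k + 1 + 1) → ℂ => (1 / (2 * ((1 : ℕ) : ℝ))) *
        Real.log (‖MvPolynomial.eval z (MvPolynomial.X 0)‖ ^ 2 + δ ^ 2 * nsq z ^ 1)) =
        wH (k := k + 1) δ := by
      funext z
      unfold wH
      rw [MvPolynomial.eval_X, pow_one]
      norm_num
    rwa [h2] at h1
  refine ⟨hD6 (k + 1 + 1) k _ _ (hD7 (k + 1 + 1) k).1 hw, ?_⟩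
  have h1 := hP6 (k + 1 + 1) k 0 (om (k + 1 + 1) k) (wH (k := k + 1) δ)
    (fun _ : Fin 0 => ell) (fun _ => 1)
  have h2 := (hP3 (k + 1 + 1) k 1 (om (k + 1 + 1) k)
    (Fin.cons (α := fun _ => (Fin (k + 1 + 1) → ℂ) → ℝ) (wH (k := k + 1) δ)
      (fun _ : Fin 0 => ell)) (by omega) (hD7 (k + 1 + 1) k).1 (by
        intro j
        refine Fin.cases ?_ (fun i => i.elim0) j
        exact hw)).2.2.1
  have h3 := ((hD7 (k + 1 + 1) k).2 1 (by omega)).2
  unfold mass at h2 h3 ⊢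
  rw [← h3, ← h2, ← h1]
  rfl

end Pool.Agent.H46.EHD
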